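import Pool.Agent.H872.BQ.Main

/-!
# A smooth affinoid algebra `A` and a projective `A⟨T⟩`-module that is not extended from `A`

For every prime `p` the affinoid algebra `A = ℚ_p⟨X, Y⟩ / (Y² - X³ - 4p)` is smooth over `ℚ_p`, and
there is a finitely generated projective module over `A⟨T⟩` that is not of the form
`A⟨T⟩ ⊗_A N`, for any `A`-module `N`.

The module is the image of the idempotent matrix
`E = (2v)⁻¹ [[v + T³Y, 1 + T²X + T⁴X²], [1 - T²X, v - T³Y]]`, where `v² = 1 + 4pT⁶`.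

* `Tate R n` is the ring `R⟨T_1, …, T_n⟩`, with the Gauss norm;
* `Aff I` is the affinoid algebra `A = k⟨T_1, …, T_n⟩ / I`, with the quotient norm;
* `AffT I` is the ring `A⟨T⟩`;
* `IsExtended I M` says that the `A⟨T⟩`-module `M` is `A⟨T⟩ ⊗_A N` for some `A`-module `N`;
* `IsSmooth I` is the Jacobian criterion of smoothness for `A`;
* `curve a` is the ideal `(Y² - X³ - a)` of `k⟨X, Y⟩`.
-/

set_option autoImplicit false

open TensorProduct Pool.Agent.H872.BQ

namespace Pool.Agent.Results.MP_d3e341_ag.AffinoidCuspidal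

/-- For every prime `p` the affinoid `ℚ_p`-algebra `A = ℚ_p⟨X, Y⟩ / (Y² - X³ - 4p)` is smooth, and
some finitely generated projective `A⟨T⟩`-module is not isomorphic to `A⟨T⟩ ⊗_A N` for any
`A`-module `N`. -/
theorem result (p : ℕ) [Fact p.Prime] :
    IsSmooth (curve (4 * (p : ℚ_[p]))) ∧
      ∃ (M : Type) (_ : AddCommGroup M) (_ : Module (AffT (curve (4 * (p : ℚ_[p])))) M),
        Module.Finite (AffT (curve (4 * (p : ℚ_[p])))) M ∧
        Module.Projective (AffT (curve (4 * (p : ℚ_[p])))) M ∧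
        ¬ IsExtended (curve (4 * (p : ℚ_[p]))) M := by
  rw [← II_eq]
  refine ⟨isSmooth_II p, ?_⟩
  obtain ⟨M, i1, i2, h1, h2, h3⟩ := not_extended p
  refine ⟨M, i1, i2, h1, h2, ?_⟩
  rintro ⟨N, j1, j2, ⟨φ⟩⟩
  exact (@h3 N j1 j2).false φ

end Pool.Agent.Results.MP_d3e341_ag.AffinoidCuspidal
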